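import Pool.Agent.Y920.JB.Stm

/-!
# The sequence of levels
-/

set_option autoImplicit false

open Topology Filter MeasureTheory Finset

namespace Pool.Agent.Y404.JB

open Pool.Agent.Y920.JB

/-- The data at one stage of the recursion. -/
structure Dat (G : Type) [AddCommGroup G] [MetricSpace G] (n : ℕ) where
  a : ℕ
  b : ℕ
  f : Fin (a + 1) → G
  d : Fin (b + 1) → G
  S : Set G
  T : Set G
  P : Set G
  hS : IsOpen S
  hTc : IsClosed T
  hT : T ∈ 𝓝 (0 : G)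
  hP : P.Finite
  hk : ∀ x : G, ∃ k, ∀ v ∈ T, x + d k + v ∈ S
  hc : ∀ x : G, (Nat.card {i : Fin (a + 1) // ∃ v ∈ T, x + f i + v ∈ S} : ℝ) ≤
    (1 / 2) ^ n * (a + 1)

/-- The relation between two stages. -/
def Rel {G : Type} [AddCommGroup G] [MetricSpace G] {n : ℕ} (D : Dat G n)
    (D' : Dat G (n + 1)) : Prop :=
  (∀ j, ∀ t ∈ D'.T, D'.f j + t ∈ D.T) ∧ (∀ j, ∀ t ∈ D'.T, D'.d j + t ∈ D.T) ∧
  (∀ p ∈ D.P, ∀ j, p + D'.f j ∈ D'.P ∧ dist p (p + D'.f j) ≤ (1 / 2) ^ n) ∧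
  (∀ p ∈ D.P, ∀ j, p + D'.d j ∈ D'.P ∧ dist p (p + D'.d j) ≤ (1 / 2) ^ n)

theorem lev_closed {G : Type} [AddCommGroup G] [MetricSpace G] [IsTopologicalAddGroup G] {c : ℝ}
    {U A : Set G} (h : Lev G c U) (hA : A ∈ 𝓝 (0 : G)) :
    ∃ (a b : ℕ) (f : Fin (a + 1) → G) (d : Fin (b + 1) → G) (S T : Set G),
    IsOpen S ∧ IsClosed T ∧ T ∈ 𝓝 (0 : G) ∧ T ⊆ A ∧ (∀ i, f i ∈ U) ∧ (∀ k, d k ∈ U) ∧
    (∀ x : G, ∃ k, ∀ v ∈ T, x + d k + v ∈ S) ∧
    (∀ x : G, (Nat.card {i : Fin (a + 1) // ∃ v ∈ T, x + f i + v ∈ S} : ℝ) ≤ c * (a + 1)) := by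
  obtain ⟨a, b, f, d, S, V, hS, hV, hf, hd, hk, hc⟩ := h
  obtain ⟨T, hT, hTc, hTV⟩ := exists_mem_nhds_isClosed_subset (Filter.inter_mem hV hA)
  refine ⟨a, b, f, d, S, T, hS, hTc, hT, fun t ht => (hTV ht).2, hf, hd, ?_, ?_⟩
  · intro x
    obtain ⟨k, hk⟩ := hk x
    exact ⟨k, fun v hv => hk v (hTV hv).1⟩
  · intro x
    refine le_trans ?_ (hc x)
    have h1 : Nat.card {i : Fin (a + 1) // ∃ v ∈ T, x + f i + v ∈ S} ≤
        Nat.card {i : Fin (a + 1) // ∃ v ∈ V, x + f i + v ∈ S} :=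
      Nat.card_le_card_of_injective
        (Subtype.map id (fun i hi => by
          obtain ⟨v, hv, h⟩ := hi
          exact ⟨v, (hTV hv).1, h⟩)) (Subtype.map_injective _ Function.injective_id)
    exact_mod_cast h1

theorem step {G : Type} [AddCommGroup G] [MetricSpace G] [IsTopologicalAddGroup G]
    (h : ∀ ε : ℝ, 0 < ε → ∀ U ∈ 𝓝 (0 : G), Lev G ε U) (n : ℕ) (D : Dat G n) :
    ∃ D' : Dat G (n + 1), Rel D D' := by
  obtain ⟨A, hA, hAA⟩ := exists_nhds_zero_half D.hT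
  have hB : ∀ᶠ t in 𝓝 (0 : G), ∀ p ∈ D.P, dist p (p + t) ≤ (1 / 2 : ℝ) ^ n := by
    rw [Filter.eventually_all_finite D.hP]
    intro p _
    have h1 : Filter.Tendsto (fun t : G => dist p (p + t)) (𝓝 0) (𝓝 (dist p (p + 0))) :=
      (continuous_const.dist (continuous_const.add continuous_id)).tendsto 0
    rw [add_zero, dist_self] at h1
    have h2 : (0 : ℝ) < (1 / 2 : ℝ) ^ n := by positivity
    exact (h1.eventually (gt_mem_nhds h2)).mono fun t ht => le_of_lt ht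
  have hAB : A ∩ {t | ∀ p ∈ D.P, dist p (p + t) ≤ (1 / 2 : ℝ) ^ n} ∈ 𝓝 (0 : G) :=
    Filter.inter_mem hA hB
  obtain ⟨a, b, f, d, S, T, hS, hTc, hT, hTA, hf, hd, hk, hc⟩ :=
    lev_closed (h ((1 / 2) ^ (n + 1)) (by positivity) _ hAB) hAB
  refine ⟨⟨a, b, f, d, S, T,
    (fun q : G × Fin (a + 1) => q.1 + f q.2) '' (D.P ×ˢ Set.univ) ∪
      (fun q : G × Fin (b + 1) => q.1 + d q.2) '' (D.P ×ˢ Set.univ), hS, hTc, hT,
    ((D.hP.prod Set.finite_univ).image _).union ((D.hP.prod Set.finite_univ).image _), hk, hc⟩,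
    ?_, ?_, ?_, ?_⟩
  · intro j t ht
    exact hAA _ (hf j).1 _ (hTA ht).1
  · intro j t ht
    exact hAA _ (hd j).1 _ (hTA ht).1
  · intro p hp j
    exact ⟨Or.inl ⟨(p, j), ⟨hp, Set.mem_univ _⟩, rfl⟩, (hf j).2 p hp⟩
  · intro p hp j
    exact ⟨Or.inr ⟨(p, j), ⟨hp, Set.mem_univ _⟩, rfl⟩, (hd j).2 p hp⟩

theorem t_REC : S_REC := by
  intro G _ _ _ h
  obtain ⟨a, b, f, d, S, T, hS, hTc, hT, -, -, -, hk, hc⟩ :=
    lev_closed (h 1 one_pos _ Filter.univ_mem) (Filter.univ_mem : Set.univ ∈ 𝓝 (0 : G))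
  let D0 : Dat G 0 := ⟨a, b, f, d, S, T, Set.range f ∪ Set.range d, hS, hTc, hT,
    (Set.finite_range f).union (Set.finite_range d), hk, fun x => by
      rw [pow_zero]
      exact hc x⟩
  choose next hnext using step h
  let s : ∀ n, Dat G n := fun n => Nat.rec (motive := fun n => Dat G n) D0 next n
  have hs : ∀ n, Rel (s n) (s (n + 1)) := fun n => hnext n (s n)
  have hPf : ∀ (w : ∀ n, Fin ((s n).a + 1)) (n : ℕ),
      ∑ i ∈ range (n + 1), (s i).f (w i) ∈ (s n).P := by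
    intro w n
    induction n with
    | zero =>
      rw [zero_add, Finset.sum_range_one]
      exact Or.inl ⟨w 0, rfl⟩
    | succ n ih =>
      rw [Finset.sum_range_succ]
      exact ((hs n).2.2.1 _ ih (w (n + 1))).1
  have hPd : ∀ (w : ∀ n, Fin ((s n).b + 1)) (n : ℕ),
      ∑ i ∈ range (n + 1), (s i).d (w i) ∈ (s n).P := by
    intro w n
    induction n with
    | zero =>
      rw [zero_add, Finset.sum_range_one]
      exact Or.inr ⟨w 0, rfl⟩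
    | succ n ih =>
      rw [Finset.sum_range_succ]
      exact ((hs n).2.2.2 _ ih (w (n + 1))).1
  refine ⟨fun n => (s n).a, fun n => (s n).b, fun n => (s n).f, fun n => (s n).d,
    fun n => (s n).S, fun n => (s n).T, fun n => (s n).hS, fun n => (s n).hTc,
    fun n => mem_of_mem_nhds (s n).hT, fun n => (hs n).1, fun n => (hs n).2.1, ?_, ?_,
    fun n => (s n).hk, fun n => (s n).hc⟩
  · intro w n
    rw [Finset.sum_range_succ _ (n + 1)]
    exact ((hs n).2.2.1 _ (hPf w n) (w (n + 1))).2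
  · intro w n
    rw [Finset.sum_range_succ _ (n + 1)]
    exact ((hs n).2.2.2 _ (hPd w n) (w (n + 1))).2

end Pool.Agent.Y404.JB
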